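import Pool.Agent.helper83.FI.SpecR
import Pool.Agent.helper79.GR.KEY

set_option autoImplicit false

namespace Pool.Agent.FI

open Pool.Agent.helper58.DC Pool.Agent.DI Pool.Agent.GR Pool.Agent.OB

/-- products of congruent factors are congruent -/
theorem RGM_prod {p : ℕ} {M : Ideal (integralClosure ℤ ℂ)} (h : Setup p M) (k : ℕ) (f g : ℕ → ℂ)
    (hf : ∀ i, IntAt M (f i)) (hg : ∀ i, IntAt M (g i)) (hfg : ∀ i, InM M (f i - g i)) :
    InM M (∏ i ∈ Finset.range k, f i - ∏ i ∈ Finset.range k, g i) := by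
  induction k with
  | zero =>
    rw [Finset.prod_range_zero, Finset.prod_range_zero, sub_self]
    exact InM.zero h
  | succ k ih =>
    rw [Finset.prod_range_succ, Finset.prod_range_succ]
    have h1 : (∏ i ∈ Finset.range k, f i) * f k - (∏ i ∈ Finset.range k, g i) * g k =
        (∏ i ∈ Finset.range k, f i) * (f k - g k) +
          (∏ i ∈ Finset.range k, f i - ∏ i ∈ Finset.range k, g i) * g k := by ring
    rw [h1]
    exact InM.add h (InM.mul_left h (IntAt.prod h _ fun i _ => hf i) (hfg k)) (InM.mul_right h ih (hg k))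

/-- a product over many periods -/
theorem RGM_per (e : ℕ → ℂ) (q : ℕ) (he : ∀ i, e (i + q) = e i) (k : ℕ) :
    ∏ i ∈ Finset.range (q * k), e i = (∏ i ∈ Finset.range q, e i) ^ k := by
  have h1 : ∀ k i, e (q * k + i) = e i := by
    intro k
    induction k with
    | zero => intro i; rw [mul_zero, zero_add]
    | succ k ih =>
      intro i
      have h3 : q * (k + 1) + i = (q * k + i) + q := by ring
      rw [h3, he, ih]
  induction k with
  | zero => rw [mul_zero, Finset.prod_range_zero, pow_zero]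
  | succ k ih =>
    rw [mul_add, mul_one, Finset.prod_range_add, ih, pow_succ]
    congr 1
    exact Finset.prod_congr rfl fun i _ => h1 k i

/-- two periods -/
theorem RGM_gcd (e : ℕ → ℂ) (q P n₀ : ℕ) (hP : 1 < P) (hc : Nat.Coprime n₀ P)
    (h1 : ∀ i, e (i + q * P) = e i) (h2 : ∀ i, e (i + n₀ * q) = e i) : ∀ i, e (i + q) = e i := by
  obtain ⟨a, ha⟩ := Nat.exists_mul_mod_eq_one_of_coprime hc hP
  have h3 : n₀ * a = P * (n₀ * a / P) + 1 := by
    have := Nat.div_add_mod (n₀ * a) P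
    omega
  obtain ⟨b, hb⟩ : ∃ b, b = n₀ * a / P := ⟨_, rfl⟩
  rw [← hb] at h3
  have h4 : ∀ k i, e (i + q * P * k) = e i := by
    intro k
    induction k with
    | zero => intro i; rfl
    | succ k ih =>
      intro i
      have h5 : i + q * P * (k + 1) = (i + q * P * k) + q * P := by ring
      rw [h5, h1, ih]
  have h5 : ∀ k i, e (i + n₀ * q * k) = e i := by
    intro k
    induction k with
    | zero => intro i; rfl
    | succ k ih =>
      intro i
      have h6 : i + n₀ * q * (k + 1) = (i + n₀ * q * k) + n₀ * q := by ring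
      rw [h6, h2, ih]
  intro i
  have h6 : (i + q) + q * P * b = i + n₀ * q * a := by
    have h7 : n₀ * q * a = q * (n₀ * a) := by ring
    rw [h7, h3]
    ring
  rw [← h4 b (i + q), h6, h5]

theorem RGM (hORB : ORB_stmt) (hRPW : RPW_stmt) : RGM_stmt := by
  classical
  intro p M hS Z _ ε ε' π n n₀ hn₀ hπ hI hI' hE hE' hinv hinv' hfix r
  -- the bound `N`
  have hNc : ∀ c : Fin (p ^ r + 1) → Z, ∃ N : ℕ, (∀ i, (π ^ n₀) (c i) = c i) → ∀ t ≥ N,
      Small p M (r + 1)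
        ((∏ i ∈ Finset.range (p ^ r), ε (c (Fin.ofNat _ i)) (c (Fin.ofNat _ (i + 1)))) ^ p ^ t -
         (∏ i ∈ Finset.range (p ^ r), ε' (c (Fin.ofNat _ i)) (c (Fin.ofNat _ (i + 1)))) ^ p ^ t) := by
    intro c
    by_cases hc : ∀ i, (π ^ n₀) (c i) = c i
    · obtain ⟨N, hN⟩ := hRPW p M hS
        (∏ i ∈ Finset.range (p ^ r), ε (c (Fin.ofNat _ i)) (c (Fin.ofNat _ (i + 1))))
        (∏ i ∈ Finset.range (p ^ r), ε' (c (Fin.ofNat _ i)) (c (Fin.ofNat _ (i + 1))))
        (IntAt.prod hS _ fun i _ => hI _ _) (IntAt.prod hS _ fun i _ => hI' _ _)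
        (RGM_prod hS _ _ _ (fun i => hI _ _) (fun i => hI' _ _)
          (fun i => hfix _ _ (hc _) (hc _))) (r + 1)
      exact ⟨N, fun _ => hN⟩
    · exact ⟨0, fun h => absurd h hc⟩
  choose Nc hNc using hNc
  obtain ⟨N, hN1, hN2⟩ : ∃ N : ℕ, 1 ≤ N ∧ ∀ c, Nc c ≤ N := by
    refine ⟨max 1 (Finset.univ.sup Nc), le_max_left _ _, fun c => ?_⟩
    exact (Finset.le_sup (f := Nc) (Finset.mem_univ c)).trans (le_max_right _ _)
  obtain ⟨l, hl⟩ : ∃ l, l = r + N := ⟨_, rfl⟩
  obtain ⟨m, hm⟩ : ∃ m, m = p ^ l := ⟨_, rfl⟩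
  have hm0 : 0 < m := by rw [hm]; exact pow_pos hS.pr.pos _
  have hmq : m = p ^ r * p ^ N := by rw [hm, hl, pow_add]
  obtain ⟨R, hR⟩ : ∃ R : Equiv.Perm (Fin m → Z), ∀ c, R c = KEY_shift π m hm0 c :=
    ⟨Equiv.ofBijective _ (Finite.injective_iff_bijective.1 (KEY_shift_inj π m hm0)), fun _ => rfl⟩
  have hRf : (R : (Fin m → Z) → (Fin m → Z)) = KEY_shift π m hm0 := funext hR
  have hRj : ∀ j c i, KEY_ext π m hm0 ((R ^ j) c) i = KEY_ext π m hm0 c (i + j) := by
    intro j c i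
    rw [← Equiv.Perm.iterate_eq_pow, hRf, KEY_ext_iter]
  have hRp : (R ^ n₀) ^ p ^ (l + n) = 1 := by
    rw [← pow_mul]
    refine Equiv.ext fun c => ?_
    refine KEY_ext_inj π m hm0 _ _ fun i => ?_
    rw [hRj]
    have h1 : i + n₀ * p ^ (l + n) = i + m * (p ^ n * n₀) := by
      rw [hm, pow_add]
      ring
    rw [h1, KEY_ext_add, hπ]
    rfl
  -- for each matrix
  obtain ⟨F, hF⟩ : ∃ F : Finset (Fin m → Z), ∀ c, c ∈ F ↔ ((R ^ n₀) ^ (p ^ r)) c = c :=
    ⟨Finset.univ.filter (fun c : Fin m → Z => ((R ^ n₀) ^ (p ^ r)) c = c), fun c => by simp⟩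
  have hgen : ∀ δ : Z → Z → ℂ, (∀ z w, IntAt M (δ z w)) → (∀ z w, ∑ u, δ z u * δ u w = δ z w) →
      (∀ z w, δ (π z) (π w) = δ z w) → Small p M (r + 1) (∑ z, δ z (π z) -
        ∑ c ∈ F, ∏ i ∈ Finset.range m, δ (KEY_ext π m hm0 c i) (KEY_ext π m hm0 c (i + 1))) := by
    intro δ hI hE hinv
    obtain ⟨w, hw⟩ : ∃ w : (Fin m → Z) → ℂ, w = fun c => ∏ i ∈ Finset.range m,
      δ (KEY_ext π m hm0 c i) (KEY_ext π m hm0 c (i + 1)) := ⟨_, rfl⟩
    have hwR : ∀ c, w (R c) = w c := by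
      intro c
      rw [hw, hR]
      exact KEY_wR δ π hinv m hm0 c
    have hwRj : ∀ j c, w ((R ^ j) c) = w c := by
      intro j
      induction j with
      | zero => intro c; rfl
      | succ j ih => intro c; rw [pow_succ', Equiv.Perm.mul_apply, hwR, ih]
    have horb := hORB p M hS (Fin m → Z) (R ^ n₀) (l + n) r hRp w (by
        intro c
        rw [hw]
        exact IntAt.prod hS _ fun i _ => hI _ _) (fun c => hwRj n₀ c)
    have htr := KEY_trace δ π hE m hm0
    obtain ⟨F', hF', hFs⟩ : ∃ F' : Finset (Fin m → Z), (∀ c, c ∈ F' ↔ ((R ^ n₀) ^ (p ^ r)) c = c) ∧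
        Small p M (r + 1) (∑ c, w c - ∑ c ∈ F', w c) := ⟨_, fun c => by simp, horb⟩
    have h9 : F' = F := Finset.ext fun c => (hF' c).trans (hF c).symm
    rw [← htr]
    rw [h9, hw] at hFs
    exact hFs
  have hg := hgen ε hI hE hinv
  have hg' := hgen ε' hI' hE' hinv'
  have hsmall : Small p M (r + 1)
      (∑ c ∈ F, (∏ i ∈ Finset.range m, ε (KEY_ext π m hm0 c i) (KEY_ext π m hm0 c (i + 1)) -
         ∏ i ∈ Finset.range m, ε' (KEY_ext π m hm0 c i) (KEY_ext π m hm0 c (i + 1)))) := by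
    refine Small.sum hS _ fun c hc => ?_
    rw [hF] at hc
    have hc1 : ∀ i, KEY_ext π m hm0 c (i + n₀ * p ^ r) = KEY_ext π m hm0 c i := by
      intro i
      have h2 := hc
      rw [← pow_mul] at h2
      rw [← hRj, h2]
    have hc2 : ∀ k i, KEY_ext π m hm0 c (i + n₀ * p ^ r * k) = KEY_ext π m hm0 c i := by
      intro k
      induction k with
      | zero => intro i; rfl
      | succ k ih =>
        intro i
        have h3 : i + n₀ * p ^ r * (k + 1) = (i + n₀ * p ^ r * k) + n₀ * p ^ r := by ring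
        rw [h3, hc1, ih]
    have hc3 : ∀ i, (π ^ n₀) (KEY_ext π m hm0 c i) = KEY_ext π m hm0 c i := by
      intro i
      have h3 := hc2 (p ^ N) i
      have h4 : i + n₀ * p ^ r * p ^ N = i + m * n₀ := by
        rw [hmq]
        ring
      rw [h4, KEY_ext_add] at h3
      exact h3
    have hc4 : ∀ δ : Z → Z → ℂ, (∀ z w, δ (π z) (π w) = δ z w) →
        ∏ i ∈ Finset.range m, δ (KEY_ext π m hm0 c i) (KEY_ext π m hm0 c (i + 1)) =
        (∏ i ∈ Finset.range (p ^ r), δ (KEY_ext π m hm0 c i) (KEY_ext π m hm0 c (i + 1))) ^ p ^ N := by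
      intro δ hinv
      have hper := RGM_gcd (fun i => δ (KEY_ext π m hm0 c i) (KEY_ext π m hm0 c (i + 1))) (p ^ r) (p ^ N) n₀
        (Nat.one_lt_pow (by omega) hS.pr.one_lt)
        (Nat.Coprime.pow_right _ ((Nat.Prime.coprime_iff_not_dvd hS.pr).2 hn₀).symm)
        (by
          intro i
          have h5 := KEY_ext_add π m hm0 c i 1
          have h6 := KEY_ext_add π m hm0 c (i + 1) 1
          rw [mul_one, pow_one] at h5 h6
          have h7 : i + m + 1 = i + 1 + m := by ring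
          change δ (KEY_ext π m hm0 c (i + p ^ r * p ^ N)) (KEY_ext π m hm0 c (i + p ^ r * p ^ N + 1)) =
            δ (KEY_ext π m hm0 c i) (KEY_ext π m hm0 c (i + 1))
          rw [← hmq, h5, h7, h6, hinv])
        (by
          intro i
          change δ (KEY_ext π m hm0 c (i + n₀ * p ^ r)) (KEY_ext π m hm0 c (i + n₀ * p ^ r + 1)) =
            δ (KEY_ext π m hm0 c i) (KEY_ext π m hm0 c (i + 1))
          have h7 : i + n₀ * p ^ r + 1 = i + 1 + n₀ * p ^ r := by ring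
          rw [h7, hc1, hc1])
      exact (congrArg (fun k => ∏ i ∈ Finset.range k,
        δ (KEY_ext π m hm0 c i) (KEY_ext π m hm0 c (i + 1))) hmq).trans (RGM_per _ _ hper _)
    rw [hc4 ε hinv, hc4 ε' hinv']
    have h8 := hNc (fun j : Fin (p ^ r + 1) => KEY_ext π m hm0 c (j : ℕ)) (fun i => hc3 _) N (hN2 _)
    have h9 : ∀ δ : Z → Z → ℂ, ∏ i ∈ Finset.range (p ^ r),
        δ (KEY_ext π m hm0 c ((Fin.ofNat (p ^ r + 1) i : Fin (p ^ r + 1)) : ℕ))
          (KEY_ext π m hm0 c ((Fin.ofNat (p ^ r + 1) (i + 1) : Fin (p ^ r + 1)) : ℕ)) =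
        ∏ i ∈ Finset.range (p ^ r), δ (KEY_ext π m hm0 c i) (KEY_ext π m hm0 c (i + 1)) := by
      intro δ
      refine Finset.prod_congr rfl fun i hi => ?_
      rw [Finset.mem_range] at hi
      have e1 : ((Fin.ofNat (p ^ r + 1) i : Fin (p ^ r + 1)) : ℕ) = i := Nat.mod_eq_of_lt (by omega)
      have e2 : ((Fin.ofNat (p ^ r + 1) (i + 1) : Fin (p ^ r + 1)) : ℕ) = i + 1 :=
        Nat.mod_eq_of_lt (by omega)
      rw [e1, e2]
    have h10 := h9 ε
    have h11 := h9 ε'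
    rw [h10, h11] at h8
    exact h8
  have h6 : ∑ z, ε z (π z) - ∑ z, ε' z (π z) =
      ((∑ z, ε z (π z) -
        ∑ c ∈ F, ∏ i ∈ Finset.range m, ε (KEY_ext π m hm0 c i) (KEY_ext π m hm0 c (i + 1))) -
      (∑ z, ε' z (π z) -
        ∑ c ∈ F, ∏ i ∈ Finset.range m, ε' (KEY_ext π m hm0 c i) (KEY_ext π m hm0 c (i + 1)))) +
      (∑ c ∈ F, (∏ i ∈ Finset.range m, ε (KEY_ext π m hm0 c i) (KEY_ext π m hm0 c (i + 1)) -
         ∏ i ∈ Finset.range m, ε' (KEY_ext π m hm0 c i) (KEY_ext π m hm0 c (i + 1)))) := by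
    rw [Finset.sum_sub_distrib]
    ring
  rw [h6]
  exact Small.mono hS (Nat.le_succ r) (Small.add hS (Small.sub hS hg hg') hsmall)

end Pool.Agent.FI
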