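import Pool.Agent.helper70.FI.SpecQ1

set_option autoImplicit false

namespace Pool.Agent.FI

open Pool.Agent.helper58.DC Pool.Agent.DI Pool.Agent.GR Pool.Agent.OB

/-- the decomposition of an element into the `p`-part and the `p`-regular part -/
theorem QIT_dec {G : Type} [Group G] [Finite G] {p : ℕ} (hp : p.Prime) (g : G) (hg : ¬ PReg p g) :
    ∃ y v : G, g = y * v ∧ PEl p y ∧ PReg p v ∧ y ≠ 1 ∧ (∀ H : Subgroup G, g ∈ H → y ∈ H ∧ v ∈ H) ∧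
      Commute y v := by
  have h0 : orderOf g ≠ 0 := (orderOf_pos g).ne'
  obtain ⟨a, m, hm, hgm⟩ := Nat.exists_eq_pow_mul_and_not_dvd h0 p hp.ne_one
  have hco : IsCoprime ((p ^ a : ℕ) : ℤ) (m : ℤ) :=
    Nat.isCoprime_iff_coprime.2 (Nat.Coprime.pow_left _ ((Nat.Prime.coprime_iff_not_dvd hp).2 hm))
  obtain ⟨s, t, hst⟩ := hco
  have h1 : g ^ (t * (m : ℤ)) * g ^ (s * ((p ^ a : ℕ) : ℤ)) = g := by
    rw [← zpow_add]
    have h2 : t * (m : ℤ) + s * ((p ^ a : ℕ) : ℤ) = 1 := by rw [add_comm]; exact hst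
    rw [h2, zpow_one]
  have hgo : ∀ k : ℤ, g ^ (k * ((orderOf g : ℕ) : ℤ)) = 1 := by
    intro k
    rw [mul_comm, zpow_mul, zpow_natCast, pow_orderOf_eq_one, one_zpow]
  have hv : PReg p (g ^ (s * ((p ^ a : ℕ) : ℤ))) := by
    intro hd
    have h3 : (g ^ (s * ((p ^ a : ℕ) : ℤ))) ^ m = 1 := by
      rw [← zpow_natCast, ← zpow_mul]
      have h4 : s * ((p ^ a : ℕ) : ℤ) * (m : ℤ) = s * ((orderOf g : ℕ) : ℤ) := by
        rw [hgm]
        push_cast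
        ring
      rw [h4, hgo]
    exact hm (hd.trans (orderOf_dvd_of_pow_eq_one h3))
  refine ⟨g ^ (t * (m : ℤ)), g ^ (s * ((p ^ a : ℕ) : ℤ)), h1.symm, ⟨a, ?_⟩, hv, ?_, ?_, ?_⟩
  · rw [← zpow_natCast, ← zpow_mul]
    have h4 : t * (m : ℤ) * ((p ^ a : ℕ) : ℤ) = t * ((orderOf g : ℕ) : ℤ) := by
      rw [hgm]
      push_cast
      ring
    rw [h4, hgo]
  · intro hy
    rw [hy, one_mul] at h1
    rw [h1] at hv
    exact hg hv
  · intro H hH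
    exact ⟨H.zpow_mem hH _, H.zpow_mem hH _⟩
  · exact (Commute.refl g).zpow_zpow _ _

theorem QIT (hBR0 : BR0_stmt) (hB2 : B2_stmt) : QIT_stmt := by
  classical
  intro p M hM G _ _ H T hT ψ hψ ψ'' hψ''
  have hTf : T.Finite := (hB2 G H).1.subset hT.sub
  have : Fintype G := Fintype.ofFinite G
  obtain ⟨R, hR⟩ : ∃ R : Finset G, ∀ v, v ∈ R ↔ v ∈ H ∧ PReg p v :=
    ⟨Finset.univ.filter fun v => v ∈ H ∧ PReg p v, fun v => by simp⟩
  obtain ⟨T', hT'⟩ : ∃ T' : Finset (G → ℂ), ∀ φ, φ ∈ T' ↔ φ ∈ T := ⟨hTf.toFinset, fun φ => hTf.mem_toFinset⟩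
  have hH0 : (Nat.card H : ℂ) ≠ 0 := Nat.cast_ne_zero.2 Nat.card_pos.ne'
  have hsT : ∀ F : (G → ℂ) → ℂ, ∑ᶠ φ ∈ T, F φ = ∑ φ ∈ T', F φ := by
    intro F
    rw [← finsum_mem_coe_finset]
    have h1 : (T' : Set (G → ℂ)) = T := Set.ext fun φ => (Finset.mem_coe.trans (hT' φ))
    rw [h1]
  have hEE : ∀ φ φ' : G → ℂ, EE p H φ φ' = (∑ v ∈ R, φ v * φ' v⁻¹) / Nat.card H := by
    intro φ φ'
    unfold EE
    have h1 : {v : G | v ∈ H ∧ PReg p v} = (R : Set G) := Set.ext fun v => (hR v).symm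
    rw [h1, finsum_mem_coe_finset]
  -- the vanishing
  have hf : ∀ g : G, g ∉ R → ∑ ψ' ∈ T', EE p H ψ ψ' * ψ' g = 0 := by
    intro g hg
    by_cases hgH : g ∈ H
    · have hreg : ¬ PReg p g := fun h => hg ((hR g).2 ⟨hgH, h⟩)
      obtain ⟨y, v, hgy, hy, hv, hy1, hmem, hcm⟩ := QIT_dec hM.pr g hreg
      have h1 : ∀ v₀ ∈ R, ∑ ψ' ∈ T', ψ' g * ψ' v₀⁻¹ = 0 := by
        intro v₀ hv₀
        have h2 := hBR0 p M hM G H T hT y (hmem H hgH).1 v (hmem H hgH).2 1 H.one_mem v₀ ((hR v₀).1 hv₀).1 hy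
          ⟨0, one_pow _⟩ hv ((hR v₀).1 hv₀).2 hcm (Commute.one_left _) (by
            intro h _ h3
            apply hy1
            have h4 : y = h * (h⁻¹ * y * h) * h⁻¹ := by group
            rw [h4, h3, mul_one, mul_inv_cancel])
        rw [← hgy, one_mul] at h2
        rw [← h2, Sf, hsT]
      have h3 : ∑ ψ' ∈ T', EE p H ψ ψ' * ψ' g =
          (∑ v₀ ∈ R, ψ v₀ * ∑ ψ' ∈ T', ψ' g * ψ' v₀⁻¹) / Nat.card H := by
        simp_rw [hEE, Finset.mul_sum]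
        rw [Finset.sum_comm, Finset.sum_div]
        refine Finset.sum_congr rfl fun φ _ => ?_
        rw [div_mul_eq_mul_div, Finset.sum_mul]
        congr 1
        refine Finset.sum_congr rfl fun v₀ _ => ?_
        ring
      rw [h3, Finset.sum_eq_zero fun v₀ hv₀ => by rw [h1 v₀ hv₀, mul_zero], zero_div]
    · refine Finset.sum_eq_zero fun φ hφ => ?_
      rw [((hB2 G H).2 φ (hT.sub ((hT' φ).1 hφ))).2.2.2.1 g hgH, mul_zero]
  -- the sum over `R` is the sum over `G`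
  have h5 : ∑ᶠ ψ' ∈ T, EE p H ψ ψ' * EE p H ψ' ψ'' =
      (∑ w ∈ R, (∑ ψ' ∈ T', EE p H ψ ψ' * ψ' w) * ψ'' w⁻¹) / Nat.card H := by
    rw [hsT]
    have h6 : ∀ ψ' ∈ T', EE p H ψ ψ' * EE p H ψ' ψ'' =
        (∑ w ∈ R, EE p H ψ ψ' * ψ' w * ψ'' w⁻¹) / Nat.card H := by
      intro ψ' _
      rw [hEE ψ' ψ'', mul_div_assoc', Finset.mul_sum]
      congr 1
      refine Finset.sum_congr rfl fun w _ => ?_
      ring
    rw [Finset.sum_congr rfl h6, ← Finset.sum_div, Finset.sum_comm]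
    congr 1
    refine Finset.sum_congr rfl fun w _ => ?_
    rw [Finset.sum_mul]
  have h7 : ∑ w ∈ R, (∑ ψ' ∈ T', EE p H ψ ψ' * ψ' w) * ψ'' w⁻¹ =
      ∑ w, (∑ ψ' ∈ T', EE p H ψ ψ' * ψ' w) * ψ'' w⁻¹ := by
    refine Finset.sum_subset (Finset.subset_univ _) fun w _ hw => ?_
    rw [hf w hw, zero_mul]
  have h8 : ∑ w, (∑ ψ' ∈ T', EE p H ψ ψ' * ψ' w) * ψ'' w⁻¹ =
      ∑ ψ' ∈ T', EE p H ψ ψ' * ∑ w, ψ' w * ψ'' w⁻¹ := by
    simp_rw [Finset.sum_mul, Finset.mul_sum]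
    rw [Finset.sum_comm]
    refine Finset.sum_congr rfl fun φ _ => Finset.sum_congr rfl fun w _ => ?_
    ring
  have h9 : ∀ ψ' ∈ T', EE p H ψ ψ' * ∑ w, ψ' w * ψ'' w⁻¹ =
      if ψ' = ψ'' then EE p H ψ ψ' * (Nat.card H : ℂ) else 0 := by
    intro ψ' hψ'
    have h10 := ((hB2 G H).2 ψ' (hT.sub ((hT' ψ').1 hψ'))).2.2.2.2 ψ'' hψ''
    rw [finsum_eq_sum_of_fintype] at h10
    by_cases h : ψ' = ψ''
    · rw [if_pos h] at h10 ⊢
      rw [h10]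
    · rw [if_neg h] at h10 ⊢
      rw [h10, mul_zero]
  rw [h5, h7, h8, Finset.sum_congr rfl h9, Finset.sum_ite_eq']
  by_cases h : ψ'' ∈ T
  · rw [if_pos ((hT' ψ'').2 h), if_pos h, mul_div_assoc, div_self hH0, mul_one]
  · rw [if_neg (fun h' => h ((hT' ψ'').1 h')), if_neg h, zero_div]

end Pool.Agent.FI
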